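import Pool.Agent.H76.SW.T

namespace Pool.Agent.H81.SW

open Pool.Agent.H76.SW

theorem reach_mono {A Q V V' : Type} (tr : Q → A × Bool → Q → Prop)
    (E : V → A → V → Prop) (E' : V' → A → V' → Prop) (h : V → V')
    (hh : ∀ u a v, E u a v → E' (h u) a (h v)) {x y : V × Q} (hr : Reach E tr x y) :
    Reach E' tr (h x.1, x.2) (h y.1, y.2) := by
  induction hr with
  | refl => exact Relation.ReflTransGen.refl
  | tail _ hs ih =>
    refine ih.tail ?_
    obtain ⟨l, h1, h2⟩ := hs
    refine ⟨l, ?_, h2⟩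
    unfold Step at h1 ⊢
    split_ifs at h1 ⊢ with hb
    · exact hh _ _ _ h1
    · exact hh _ _ _ h1

theorem pf_U4 : U_u4_mono := by
  intro A Q V V' n r tr U E E' h hh z hs
  obtain ⟨f, hf, μ, h1, h2⟩ := hs
  exact ⟨f, hf, fun i => h (μ i), fun e he => reach_mono tr E E' h hh (h1 e he),
    fun i => by simp only [h2]⟩

end Pool.Agent.H81.SW
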