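import Pool.Agent.H76.SW.T

namespace Pool.Agent.H81.SW

open Pool.Agent.H76.SW

theorem pf_T4 (h1 : U_u2_simple) (h2 : U_u8_small) : U_t4_small := by
  intro A r Γ Δ hΓ hΔ h V _ E z hG
  by_contra hD
  rcases isEmpty_or_nonempty V with hV | hV
  · have : Fintype V := Fintype.ofFinite V
    refine hD (h V ?_ E z hG)
    rw [Fintype.card_eq_zero]
    exact Nat.zero_le _
  · obtain ⟨tr1, U1, hu1⟩ := h1 Γ hΓ
    obtain ⟨tr2, U2, hu2⟩ := h1 Δ hΔ
    have a1 : USat tr1 U1 E z := (hu1 V E z).1 hG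
    have a2 : ¬ USat tr2 U2 E z := fun hh => hD ((hu2 V E z).2 hh)
    obtain ⟨V', iV, E', z', hc, b1, b2⟩ := h2 tr1 tr2 U1 U2 (by positivity) E z a1 a2
    have : Nonempty V' := by
      obtain ⟨f, _, μ, _⟩ := b1
      exact ⟨μ ⟨0, by positivity⟩⟩
    have c1 := (hu1 V' E' z').2 b1
    rw [Fintype.card_fin, Fintype.card_fin] at hc
    exact b2 ((hu2 V' E' z').1 (h V' hc E' z' c1))

end Pool.Agent.H81.SW
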